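import Mathlib

set_option autoImplicit false

namespace Pool.Agent.Results.MP_af8c33_pr.Scv

open Matrix Finset

/-- Generator of an irreducible continuous-time Markov chain on `Fin p`. -/
structure IsIrredGen {p : ℕ} (Q : Matrix (Fin p) (Fin p) ℝ) : Prop where
  off : ∀ i j, i ≠ j → 0 ≤ Q i j
  row : ∀ i, ∑ j, Q i j = 0
  irr : ∀ i j, Relation.ReflTransGen (fun a b => a ≠ b ∧ 0 < Q a b) i j

section
variable {p : ℕ} {Q : Matrix (Fin p) (Fin p) ℝ}

lemma mv (hQ : IsIrredGen Q) (h : Fin p → ℝ) (i : Fin p) :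
    (Q *ᵥ h) i = ∑ j, Q i j * (h j - h i) := by
  simp only [mulVec, dotProduct, mul_sub, sum_sub_distrib, ← sum_mul, hQ.row, zero_mul, sub_zero]

lemma term_nn (hQ : IsIrredGen Q) (h : Fin p → ℝ) (i : Fin p) (hi : ∀ j, h i ≤ h j) (j : Fin p) :
    0 ≤ Q i j * (h j - h i) := by
  by_cases e : i = j
  · subst e; simp
  · exact mul_nonneg (hQ.off i j e) (by linarith [hi j])

lemma cv (l h : Fin p → ℝ) (i : Fin p) :
    ((Q - diagonal l) *ᵥ h) i = (Q *ᵥ h) i - l i * h i := by
  rw [sub_mulVec, Pi.sub_apply, mulVec_diagonal]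

lemma ker_nn (hQ : IsIrredGen Q) (l : Fin p → ℝ) (hl : ∀ i, 0 ≤ l i) (hl0 : ∃ i, l i ≠ 0)
    (h : Fin p → ℝ) (hh : (Q - diagonal l) *ᵥ h = 0) (k : Fin p) : 0 ≤ h k := by
  obtain ⟨i, -, hi⟩ := exists_min_image univ h ⟨k, mem_univ _⟩
  have hi' : ∀ j, h i ≤ h j := fun j => hi j (mem_univ _)
  by_contra hk
  have hneg : h i < 0 := lt_of_le_of_lt (hi' k) (not_le.1 hk)
  have key : ∀ a, h a = h i → l a = 0 ∧ ∀ b, Q a b * (h b - h a) = 0 := by
    intro a ha
    have ha' : ∀ j, h a ≤ h j := fun j => ha ▸ hi' j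
    have e := congrFun hh a
    rw [cv, mv hQ, Pi.zero_apply] at e
    have s0 : 0 ≤ ∑ j, Q a j * (h j - h a) := sum_nonneg fun j _ => term_nn hQ h a ha' j
    have m0 : l a * h a ≤ 0 := mul_nonpos_of_nonneg_of_nonpos (hl a) (by linarith)
    have s1 : ∑ j, Q a j * (h j - h a) = 0 := by linarith
    have m1 : l a * h a = 0 := by linarith
    refine ⟨(mul_eq_zero.1 m1).resolve_right (by linarith), fun b => ?_⟩
    exact (sum_eq_zero_iff_of_nonneg fun j _ => term_nn hQ h a ha' j).1 s1 b (mem_univ _)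
  obtain ⟨z, hz⟩ := hl0
  have all : ∀ j, Relation.ReflTransGen (fun a b => a ≠ b ∧ 0 < Q a b) i j → h j = h i := by
    intro j hj
    induction hj with
    | refl => rfl
    | tail _ hbc ih =>
      have := (mul_eq_zero.1 ((key _ ih).2 _)).resolve_left hbc.2.ne'
      linarith
  exact hz (key z (all z (hQ.irr i z))).1

lemma nonsing (hQ : IsIrredGen Q) (l : Fin p → ℝ) (hl : ∀ i, 0 ≤ l i) (hl0 : ∃ i, l i ≠ 0) :
    IsUnit (Q - diagonal l).det := by
  rw [isUnit_iff_ne_zero]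
  intro hd
  obtain ⟨v, hv, hv0⟩ := Matrix.exists_mulVec_eq_zero_iff.2 hd
  apply hv
  funext k
  have a := ker_nn hQ l hl hl0 v hv0 k
  have b := ker_nn hQ l hl hl0 (-v) (by rw [mulVec_neg, hv0, neg_zero]) k
  rw [Pi.neg_apply] at b
  rw [Pi.zero_apply]
  linarith

lemma supp (hQ : IsIrredGen Q) (u : Fin p → ℝ) (hu : ∀ i, 0 ≤ u i) (h0 : u ᵥ* Q = 0)
    (i j : Fin p) (hi : 0 < u i) : 0 < u j := by
  have hij := hQ.irr i j
  induction hij with
  | refl => exact hi
  | @tail b c _ hbc ih =>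
    rcases (hu c).lt_or_eq with g | g
    · exact g
    · exfalso
      have e := congrFun h0 c
      simp only [vecMul, dotProduct, Pi.zero_apply] at e
      have nn : ∀ a, 0 ≤ u a * Q a c := by
        intro a
        by_cases ea : a = c
        · rw [ea, ← g]; simp
        · exact mul_nonneg (hu a) (hQ.off a c ea)
      have := (sum_eq_zero_iff_of_nonneg fun a _ => nn a).1 e b (mem_univ _)
      exact (mul_pos ih hbc.2).ne' this

lemma abs_stat (hQ : IsIrredGen Q) (u : Fin p → ℝ) (h0 : u ᵥ* Q = 0) :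
    (fun i => max (u i) 0) ᵥ* Q = 0 := by
  have nn : ∀ c, 0 ≤ ∑ a, max (u a) 0 * Q a c := by
    intro c
    have e := congrFun h0 c
    simp only [vecMul, dotProduct, Pi.zero_apply] at e
    rcases le_total (u c) 0 with g | g
    · refine sum_nonneg fun a _ => ?_
      by_cases ea : a = c
      · rw [ea, max_eq_right g]; simp
      · exact mul_nonneg (le_max_right _ _) (hQ.off a c ea)
    · refine e.ge.trans (sum_le_sum fun a _ => ?_)
      by_cases ea : a = c
      · rw [ea, max_eq_left g]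
      · exact mul_le_mul_of_nonneg_right (le_max_left _ _) (hQ.off a c ea)
  have tot : ∑ c, ∑ a, max (u a) 0 * Q a c = 0 := by
    rw [sum_comm]
    simp only [← mul_sum, hQ.row, mul_zero, sum_const_zero]
  funext c
  exact (sum_eq_zero_iff_of_nonneg fun c _ => nn c).1 tot c (mem_univ _)

lemma pi_nn (hQ : IsIrredGen Q) (u : Fin p → ℝ) (h0 : u ᵥ* Q = 0) (h1 : ∑ i, u i = 1)
    (j : Fin p) : 0 < u j := by
  have : ∃ i, 0 < u i := by
    by_contra hc
    push Not at hc
    have : ∑ i, u i ≤ 0 := sum_nonpos fun i _ => hc i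
    linarith
  obtain ⟨i, hi⟩ := this
  have := supp hQ _ (fun i => le_max_right (u i) 0) (abs_stat hQ u h0) i j
    (lt_max_of_lt_left hi)
  rcases lt_max_iff.1 this with g | g
  · exact g
  · exact absurd g (lt_irrefl _)

end

theorem result (p : ℕ) (Q : Matrix (Fin p) (Fin p) ℝ) (hQ : IsIrredGen Q)
    (l : Fin p → ℝ) (hl : ∀ i, 0 ≤ l i) (hl0 : ∃ i, l i ≠ 0)
    (π : Fin p → ℝ) (hπ : π ᵥ* Q = 0) (h1 : ∑ i, π i = 1) :
    IsUnit (Q - diagonal l).det ∧
    1 ≤ (π ⬝ᵥ ((Q - diagonal l) *ᵥ fun _ => 1)) *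
      (π ⬝ᵥ ((Q - diagonal l)⁻¹ *ᵥ fun _ => 1)) := by
  have hu := nonsing hQ l hl hl0
  refine ⟨hu, ?_⟩
  have hp := pi_nn hQ π hπ h1
  set g : Fin p → ℝ := (Q - diagonal l)⁻¹ *ᵥ fun _ => 1 with hg
  have hC : (Q - diagonal l) *ᵥ g = fun _ => 1 := by
    rw [hg, mulVec_mulVec, mul_nonsing_inv _ hu, one_mulVec]
  set h : Fin p → ℝ := -g with hh
  have eq : ∀ i, l i * h i = 1 + ∑ j, Q i j * (h j - h i) := by
    intro i
    have e : ((Q - diagonal l) *ᵥ h) i = -1 := by rw [hh, mulVec_neg, hC]; rfl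
    rw [cv, mv hQ] at e
    linarith
  have hpos : ∀ k, 0 < h k := by
    intro k
    obtain ⟨i, -, hi⟩ := exists_min_image univ h ⟨k, mem_univ _⟩
    have hi' : ∀ j, h i ≤ h j := fun j => hi j (mem_univ _)
    have s0 : 0 ≤ ∑ j, Q i j * (h j - h i) := sum_nonneg fun j _ => term_nn hQ h i hi' j
    have : 0 < l i * h i := by rw [eq i]; linarith
    refine lt_of_lt_of_le ?_ (hi' k)
    by_contra hn
    have := mul_nonpos_of_nonneg_of_nonpos (hl i) (not_lt.1 hn)
    linarith
  have lg : ∀ i, 1 / h i + ∑ j, Q i j * Real.log (h j) ≤ l i := by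
    intro i
    have hi := hpos i
    have a : ∑ j, Q i j * Real.log (h j) = ∑ j, Q i j * (Real.log (h j) - Real.log (h i)) := by
      simp only [mul_sub, sum_sub_distrib, ← sum_mul, hQ.row, zero_mul, sub_zero]
    have b : ∑ j, Q i j * (Real.log (h j) - Real.log (h i)) ≤
        ∑ j, Q i j * (h j - h i) / h i := by
      refine sum_le_sum fun j _ => ?_
      by_cases e : i = j
      · subst e; simp
      · rw [mul_div_assoc]
        refine mul_le_mul_of_nonneg_left ?_ (hQ.off i j e)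
        rw [← Real.log_div (hpos j).ne' hi.ne', sub_div, div_self hi.ne']
        exact Real.log_le_sub_one_of_pos (div_pos (hpos j) hi)
    rw [← sum_div] at b
    have c : l i = 1 / h i + (∑ j, Q i j * (h j - h i)) / h i := by
      rw [← add_div, ← eq i, mul_div_assoc, div_self hi.ne', mul_one]
    linarith
  have z : ∑ i, π i * ∑ j, Q i j * Real.log (h j) = 0 := by
    simp only [mul_sum, ← mul_assoc]
    rw [sum_comm]
    refine sum_eq_zero fun j _ => ?_
    have e := congrFun hπ j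
    simp only [vecMul, dotProduct, Pi.zero_apply] at e
    rw [← sum_mul, e, zero_mul]
  have sa : ∑ i, π i * (1 / h i) ≤ ∑ i, π i * l i := by
    have : ∑ i, π i * (1 / h i + ∑ j, Q i j * Real.log (h j)) ≤ ∑ i, π i * l i :=
      sum_le_sum fun i _ => mul_le_mul_of_nonneg_left (lg i) (hp i).le
    simp only [mul_add, sum_add_distrib] at this
    linarith
  obtain ⟨i0, -⟩ := hl0
  have bpos : 0 < ∑ i, π i * h i :=
    sum_pos (fun i _ => mul_pos (hp i) (hpos i)) ⟨i0, mem_univ _⟩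
  have cs : ∀ t : ℝ, 2 * t ≤ ∑ i, π i * (1 / h i) + t ^ 2 * ∑ i, π i * h i := by
    intro t
    have : ∑ i, π i * (2 * t) ≤ ∑ i, π i * (1 / h i + t ^ 2 * h i) := by
      refine sum_le_sum fun i _ => mul_le_mul_of_nonneg_left ?_ (hp i).le
      have hi := hpos i
      have : 1 / h i + t ^ 2 * h i - 2 * t = (1 - t * h i) ^ 2 / h i := by
        field_simp; ring
      have : 0 ≤ (1 - t * h i) ^ 2 / h i := by positivity
      linarith
    rw [← sum_mul, h1, one_mul] at this
    simp only [mul_add, sum_add_distrib] at this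
    rw [mul_sum]
    convert this using 3 with i
    ring
  have e1 : π ⬝ᵥ ((Q - diagonal l) *ᵥ fun _ => 1) = -∑ i, π i * l i := by
    simp only [dotProduct, cv, mv hQ, sub_self, mul_zero, sum_const_zero, mul_one, zero_sub,
      mul_neg, sum_neg_distrib]
  have e2 : π ⬝ᵥ g = -∑ i, π i * h i := by
    simp only [dotProduct, hh, Pi.neg_apply, mul_neg, sum_neg_distrib, neg_neg]
  rw [e1, e2, neg_mul_neg]
  generalize ∑ i, π i * h i = b at *
  generalize ∑ i, π i * (1 / h i) = S at *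
  have c1 := cs (1 / b)
  have : (1 / b) ^ 2 * b = 1 / b := by field_simp
  have c2 : 1 / b ≤ ∑ i, π i * l i := by linarith
  rwa [div_le_iff₀ bpos] at c2

end Pool.Agent.Results.MP_af8c33_pr.Scv
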